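import Mathlib
import Pool.Agent.Q154.MultinomGrowth

/-!
# Pair-sum statistics of multinomial coefficient values grow faster than every power of n

`Mset n` is the set of values `n! / (p₁! ⋯ p_t!)` over partitions of `n`, `r n t` counts the
unordered representations of `t` as a sum of two elements of `Mset n`, and `C`, `D`, `mu` are the
collision excess, the number of sums with at least two representations, and the maximal number of
representations.
-/

namespace Pool.Agent.Results.MP_675def_co.SuperPolynomial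

open Filter Asymptotics Q154.Multinom

/-- None of the three conjectured orders of magnitude is correct: each statistic eventually
exceeds every fixed power of `n`. -/
theorem result :
    (∀ A : ℕ, ∀ᶠ n : ℕ in atTop, n ^ A ≤ C n ∧ n ^ A ≤ D n ∧ n ^ A ≤ mu n) ∧
    ¬ (fun n : ℕ => (C n : ℝ)) =O[atTop] (fun n : ℕ => (n : ℝ) ^ 2 * Real.log n) ∧
    ¬ (fun n : ℕ => (D n : ℝ)) =O[atTop]
      (fun n : ℕ => (n : ℝ) ^ (3 / 2 : ℝ) * √(Real.log n)) ∧
    ¬ (fun n : ℕ => (mu n : ℝ)) =O[atTop] (fun n : ℕ => √((n : ℝ) * Real.log n)) := by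
  have aux : ∀ (f : ℕ → ℕ) (g : ℕ → ℝ), Tendsto (fun n => (f n : ℝ) / g n) atTop atTop →
      (∀ᶠ n : ℕ in atTop, 0 < g n) → ¬ (fun n : ℕ => (f n : ℝ)) =O[atTop] g := by
    intro f g h hg hO
    obtain ⟨c, hc⟩ := hO.bound
    obtain ⟨n, h1, h2, h3⟩ := ((h.eventually_gt_atTop c).and (hg.and hc)).exists
    rw [Real.norm_eq_abs, Real.norm_eq_abs, abs_of_pos h2, Nat.abs_cast] at h3
    rw [lt_div_iff₀ h2] at h1
    linarith
  refine ⟨fun A => (C_growth A).and ((D_growth A).and (mu_growth A)), aux C _ ratio_C ?_,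
    aux D _ ratio_D ?_, aux mu _ ratio_mu ?_⟩
  all_goals
    filter_upwards [eventually_ge_atTop 2] with n hn
    obtain ⟨h1, h2⟩ := log_le_nat n hn
    have h : (0 : ℝ) < n := by positivity
    positivity

end Pool.Agent.Results.MP_675def_co.SuperPolynomial
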